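import Pool.Agent.Lib.MP_f9c708_lc.Final

set_option autoImplicit false

namespace Pool.Agent.Results.MP_f9c708_lc.LowerBound

open Pool.MPf9c708

/-- Any adaptive strategy that determines convex `n`-gons with the given interior point `p` from
chord lengths, using at most `m` probes, satisfies `m ≥ 3 n - 4`, for every `n ≥ 4`. -/
theorem result (n m : ℕ) (hn : 4 ≤ n) (p : Plane) (σ : Strategy) (h : Determines n m p σ) :
    3 * n ≤ m + 4 :=
  lower_bound hn h

end Pool.Agent.Results.MP_f9c708_lc.LowerBound
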